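import Pool.Agent.Helper96.NSF.MChain
import Pool.Agent.Helper49.ZZ.EVT

/-! Packet NSF RMF: flips at the end of a leg. -/

set_option autoImplicit false
set_option linter.unusedVariables false

open scoped ENNReal
open Finset

namespace Pool.Agent.Helper49.NSF

open Pool.Agent.Helper92.Eps
open Pool.Agent.Helper99.ZZ
open Pool.Agent.Helper96.NSF
open Pool.Agent.Helper49.ZZ (H_app fpp_app)

variable {B : Type} {D : ℕ}

lemma fpp_stop (A : Alph B D) : ∀ (l : List B) (T : ℕ), A.Str T l → A.fpp T l = l := by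
  intro l
  induction l with
  | nil => intro T _; rfl
  | cons b l ih =>
    intro T hT
    obtain ⟨h1, h2⟩ := hT
    rw [Alph.fpp]
    rcases l with _ | ⟨c, l⟩
    · have : T < A.h b := by simpa [Alph.H] using h2
      rw [if_pos this]
    · have e1 : A.H ((b :: c :: l).dropLast) = A.h b + A.H ((c :: l).dropLast) := by
        simp [Alph.H]
      have e2 : A.H (b :: c :: l) = A.h b + A.H (c :: l) := by simp [Alph.H]
      rw [e1] at h1
      rw [e2] at h2
      rw [if_neg (by omega), ih (T - A.h b) ⟨by omega, by omega⟩]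

lemma H_map (A : Alph B D) {x y : List B} (h : x.map A.h = y.map A.h) : A.H x = A.H y := by
  unfold Alph.H
  rw [h]

lemma str_map (A : Alph B D) {x y : List B} (h : x.map A.h = y.map A.h) (T : ℕ)
    (hs : A.Str T y) : A.Str T x := by
  have h2 : x.dropLast.map A.h = y.dropLast.map A.h := by
    rw [List.map_dropLast, List.map_dropLast, h]
  refine ⟨?_, ?_⟩
  · rw [H_map A h2]
    exact hs.1
  · rw [H_map A h]
    exact hs.2

lemma iv_t {P : Prop} (h : P) (x : ℝ≥0∞) : iv P x = x := by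
  unfold iv
  rw [if_pos h]

lemma iv_f {P : Prop} (h : ¬ P) (x : ℝ≥0∞) : iv P x = 0 := by
  unfold iv
  rw [if_neg h]

lemma iv_iff {P Q : Prop} (h : P ↔ Q) (x : ℝ≥0∞) : iv P x = iv Q x := by
  by_cases hP : P
  · rw [iv_t hP, iv_t (h.1 hP)]
  · rw [iv_f hP, iv_f fun hQ => hP (h.2 hQ)]

theorem RMF : RMF_stmt := by
  intro B Δ ι _ _ D A rb ok dep F Gd Bd q J c0 hC hR hF hBG d hdep hdep1 hok hokF μ G G' hGG' hG'
    r p hr hp
  -- notation
  set r' : ℕ := dep d with hr'
  have hr'J : r' ≤ 2 ^ J := by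
    rcases hdep with h | ⟨ρ, hρ, h⟩
    · omega
    · rw [h]
      exact Nat.pow_le_pow_right (by norm_num) hρ
  have hrJ : r ≤ 2 ^ J := by
    rcases hr with h | ⟨ρ, hρ, h⟩
    · rw [h]
      exact Nat.zero_le _
    · rw [h]
      exact Nat.pow_le_pow_right (by norm_num) hρ
  have hsl : ∀ l, sl A r' l = A.fpp r' l := by
    intro l
    unfold sl
    rw [if_neg (by omega)]
  let X : List B → List B := fun t => A.fpp r' (rb (p ++ t))
  let te : ι → List B → List B := fun ε t => rb (F ε (rb t))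
  have hte : ∀ ε t, te ε (te ε t) = t := by
    intro ε t
    simp only [te]
    rw [hR.inv, hF.inv, hR.inv]
  -- the main facts
  have key : ∀ ε t, ok d (p ++ t) → Gd (X t) → Gd (rb (p ++ t)) ∧
      rb (p ++ te ε t) = F ε (rb (p ++ t)) ∧ ok d (p ++ te ε t) ∧ X (te ε t) = F ε (X t) := by
    intro ε t ht hg
    have hH : 3 * 2 ^ J < A.H (p ++ t) := hok _ ht
    have hHr : A.H (rb (p ++ t)) = A.H (p ++ t) := hR.H _
    obtain ⟨hstr, m, hm⟩ := hC.fpp_str r' (rb (p ++ t)) (by rw [hHr]; omega)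
    have hm' : rb (p ++ t) = X t ++ m := hm
    have hstr' : A.Str r' (X t) := hstr
    have hgl : Gd (rb (p ++ t)) := by
      rw [hm']
      exact (hF.ext ε _ m hg).1
    have hFl : F ε (rb (p ++ t)) = F ε (X t) ++ m := by
      conv_lhs => rw [hm']
      exact (hF.ext ε _ m hg).2
    have hgt : Gd (rb t) := by
      rcases List.eq_nil_or_concat p with hp0 | ⟨q', b, hpq⟩
      · rw [hp0, List.nil_append] at hgl
        exact hgl
      · have hpq' : p = q' ++ [b] := by rw [hpq]; simp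
        have hb : ∃ b', rb [b] = [b'] := List.length_eq_one_iff.1 (by rw [hR.len]; rfl)
        obtain ⟨b', hb'⟩ := hb
        have e1 : rb (p ++ t) = rb t ++ b' :: rb q' := by
          rw [hR.app, hpq', hR.app, hb']
          rfl
        rw [e1] at hgl
        refine hF.loc _ _ _ hgl ?_
        have e2 : A.H (rb t ++ [b']) = A.H t + A.H [b] := by
          rw [H_app, ← hb', hR.H, hR.H]
        have e3 : A.H (p ++ t) = A.H q' + A.H [b] + A.H t := by
          rw [H_app, hpq', H_app]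
        have e4 : A.H q' ≤ r := by
          rcases hp with ⟨_, h⟩ | ⟨_, h⟩
          · rw [h] at hpq'
            simp at hpq'
          · have h1 := h.1
            rw [hpq', List.dropLast_concat] at h1
            exact h1
        have e5 : 2 ^ (J - 2) ≤ 2 ^ J := Nat.pow_le_pow_right (by norm_num) (by omega)
        rw [e2]
        omega
    have e6 : F ε (rb (p ++ t)) = F ε (rb t) ++ rb p := by
      rw [hR.app]
      exact (hF.ext ε _ _ hgt).2
    have e7 : rb (p ++ te ε t) = F ε (rb (p ++ t)) := by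
      rw [hR.app, e6]
      simp only [te]
      rw [hR.inv]
    refine ⟨hgl, e7, ?_, ?_⟩
    · have h1 := hokF ε _ ht hgl
      rw [← e7, hR.inv] at h1
      exact h1
    · have h1 : X (te ε t) = A.fpp r' (F ε (X t) ++ m) := by
        simp only [X]
        rw [e7]
        exact congrArg _ hFl
      have h2 : A.Str r' (F ε (X t)) := str_map A (hF.ht ε _) r' hstr'
      rw [h1, fpp_app A m _ _ h2.2, fpp_stop A _ _ h2]
  have key2 : ∀ ε t, (ok d (p ++ te ε t) ∧ Gd (X (te ε t))) ↔ (ok d (p ++ t) ∧ Gd (X t)) := by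
    intro ε t
    constructor
    · rintro ⟨h1, h2⟩
      obtain ⟨-, -, h3, h4⟩ := key ε (te ε t) h1 h2
      rw [hte] at h3 h4
      refine ⟨h3, ?_⟩
      rw [h4]
      exact hF.gd ε _ h2
    · rintro ⟨h1, h2⟩
      obtain ⟨-, -, h3, h4⟩ := key ε t h1 h2
      refine ⟨h3, ?_⟩
      rw [h4]
      exact hF.gd ε _ h2
  have hWt : ∀ ε t, A.W (te ε t) = A.W t := by
    intro ε t
    simp only [te]
    rw [hR.W, hF.wt, hR.W]
  -- the sum of the flipped terms
  let g : List B → ℝ≥0∞ := fun t => iv (ok d (p ++ t) ∧ Gd (X t) ∧ μ.1 (rb (p ++ t)))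
    (A.W t * G' (X t))
  have hg : ∀ ε t, g (te ε t) = iv (ok d (p ++ t) ∧ Gd (X t)) (A.W t * G' (X t)) *
      iv (μ.1 (F ε (rb (p ++ t)))) 1 := by
    intro ε t
    by_cases h : ok d (p ++ t) ∧ Gd (X t)
    · obtain ⟨h1, h2, h3, h4⟩ := key ε t h.1 h.2
      have h5 := (key2 ε t).2 h
      simp only [g]
      rw [iv_t h, h2, hWt, h4, hG' ε _ h.2]
      by_cases hm : μ.1 (F ε (rb (p ++ t)))
      · rw [iv_t hm, mul_one, iv_t ⟨h3, hF.gd ε _ h.2, hm⟩]
      · rw [iv_f hm, mul_zero, iv_f fun hh => hm hh.2.2]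
    · have h5 : ¬ (ok d (p ++ te ε t) ∧ Gd (X (te ε t))) := fun hh => h ((key2 ε t).1 hh)
      rw [iv_f h, zero_mul]
      exact iv_f (fun hh => h5 ⟨hh.1, hh.2.1⟩) _
  have hT : (Fintype.card ι : ℝ≥0∞) * ∑' t, g t ≤ (Fintype.card ι : ℝ≥0∞) *
      (q * ∑' t, iv (ok d (p ++ t)) (A.W t * G' (X t))) := by
    have h1 : ∀ ε : ι, ∑' t, g (te ε t) = ∑' t, g t := by
      intro ε
      let e : List B ≃ List B := ⟨te ε, te ε, hte ε, hte ε⟩
      exact e.tsum_eq g
    calc (Fintype.card ι : ℝ≥0∞) * ∑' t, g t = ∑ ε : ι, ∑' t, g (te ε t) := by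
          simp only [h1]
          rw [Finset.sum_const, Finset.card_univ, nsmul_eq_mul]
      _ = ∑' t, ∑ ε : ι, g (te ε t) := by
          rw [← tsum_fintype (L := SummationFilter.unconditional ι)]
          rw [ENNReal.tsum_comm]
          refine tsum_congr fun t => ?_
          rw [tsum_fintype]
      _ ≤ ∑' t, (Fintype.card ι : ℝ≥0∞) * (q * iv (ok d (p ++ t)) (A.W t * G' (X t))) := by
          refine ENNReal.tsum_le_tsum fun t => ?_
          simp only [hg]
          rw [← Finset.mul_sum]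
          by_cases h : ok d (p ++ t) ∧ Gd (X t)
          · rw [iv_t h, iv_t h.1]
            inhabit ι
            have h2 := μ.2 (rb (p ++ t)) (key default t h.1 h.2).1
            calc A.W t * G' (X t) * ∑ ε : ι, iv (μ.1 (F ε (rb (p ++ t)))) 1 ≤
                A.W t * G' (X t) * (q * (Fintype.card ι : ℝ≥0∞)) := by gcongr
              _ = _ := by ring
          · rw [iv_f h, zero_mul]
            exact zero_le
      _ = _ := by rw [ENNReal.tsum_mul_left, ENNReal.tsum_mul_left]
  have hT2 : ∑' t, g t ≤ q * ∑' t, iv (ok d (p ++ t)) (A.W t * G' (X t)) := by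
    have hc0 : (Fintype.card ι : ℝ≥0∞) ≠ 0 := by
      exact_mod_cast Fintype.card_ne_zero
    have hc1 : (Fintype.card ι : ℝ≥0∞) ≠ ⊤ := ENNReal.natCast_ne_top _
    exact (ENNReal.mul_le_mul_iff_right hc0 hc1).1 hT
  unfold RM RF
  refine le_trans ?_ (add_le_add le_rfl (by
    simp only [← hr', hsl]
    exact hT2))
  rw [← ENNReal.tsum_add]
  refine ENNReal.tsum_le_tsum fun t => ?_
  simp only [← hr', hsl]
  by_cases h : ok d (p ++ t) ∧ (Bd (A.fpp r' (rb (p ++ t))) ∨ μ.1 (rb (p ++ t)))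
  · rw [iv_t h, iv_t h.1]
    by_cases hb : Bd (A.fpp r' (rb (p ++ t)))
    · rw [iv_t hb]
      exact le_self_add
    · have hm : μ.1 (rb (p ++ t)) := h.2.resolve_left hb
      have hgd : Gd (X t) := hBG _ hb
      have hgt : g t = A.W t * G' (X t) := iv_t ⟨h.1, hgd, hm⟩ _
      rw [hgt]
      refine le_trans ?_ le_add_self
      exact mul_le_mul_right (hGG' _ hgd hb) _
  · rw [iv_f h]
    exact zero_le

end Pool.Agent.Helper49.NSF
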